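import Pool.Agent.Q32.Racg

/-!
# MP_6a2cdd_al: generalised reflection subgroups need not be right-angled Coxeter groups

For every `n ≥ 2` let `Γ` be the complete `n`-partite graph with parts of size two, so that
`C(Γ) = D_∞ ^ n` has dimension `n`.  The point reflections (products of `n` commuting reflections,
one from each factor) generate `ℤ ^ n ⋊ {± 1}`, which is not a right-angled Coxeter group.
-/

namespace Pool.Agent.Results.MP_6a2cdd_al.PointReflections

open Q32.Racg

universe u

variable {V : Type*}

/-- A reflection of `C(Γ)`: a conjugate of a standard generator. -/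
def IsReflection (Γ : SimpleGraph V) (r : RACG Γ) : Prop :=
  ∃ (g : RACG Γ) (v : V), r = g * gen Γ v * g⁻¹

/-- A generalised reflection of `C(Γ)`: a product `r₁ r₂ ⋯ r_k` with `k ≥ 1` of pairwise distinct,
pairwise commuting reflections. -/
def IsGenReflection (Γ : SimpleGraph V) (x : RACG Γ) : Prop :=
  ∃ l : List (RACG Γ), l ≠ [] ∧ l.Nodup ∧ (∀ r ∈ l, IsReflection Γ r) ∧
    l.Pairwise Commute ∧ x = l.prod

/-- The point reflections. -/
def point (n : ℕ) (ε : Fin n → Bool) : RACG (cross n) :=
  ((List.finRange n).map fun i => gen (cross n) (i, ε i)).prod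

theorem toPi_point (n : ℕ) (ε : Fin n → Bool) :
    toPi n (point n ε) = fun i => gen G2 (ε i) := by
  funext j
  rw [point, map_list_prod, List.map_map]
  have h := map_list_prod (Pi.evalMonoidHom (fun _ : Fin n => D) j)
    ((List.finRange n).map ((toPi n) ∘ fun i => gen (cross n) (i, ε i)))
  rw [Pi.evalMonoidHom_apply] at h
  rw [h, List.map_map, List.prod_map_eq_pow_single j, List.count_finRange, pow_one]
  · simp only [Function.comp_apply, toPi_gen, Pi.evalMonoidHom_apply, Pi.mulSingle_eq_same]
  · intro i hi _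
    simp only [Function.comp_apply, toPi_gen, Pi.evalMonoidHom_apply]
    exact Pi.mulSingle_eq_of_ne hi.symm _

theorem isGenReflection_point (n : ℕ) (hn : 2 ≤ n) (ε : Fin n → Bool) :
    IsGenReflection (cross n) (point n ε) := by
  refine ⟨(List.finRange n).map fun i => gen (cross n) (i, ε i), ?_, ?_, ?_, ?_, rfl⟩
  · intro h
    have := congrArg List.length h
    simp at this
    omega
  · refine (List.nodup_finRange n).map ?_
    intro i j hij
    by_contra hne
    have h := congrArg (fun g => par (toPi n g i)) hij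
    simp only [toPi_gen, Pi.mulSingle_eq_same, Pi.mulSingle_eq_of_ne hne, map_one, par_gen] at h
    exact absurd h (by decide)
  · intro r hr
    obtain ⟨i, _, rfl⟩ := List.mem_map.1 hr
    exact ⟨1, (i, ε i), by simp⟩
  · rw [List.pairwise_map]
    refine (List.nodup_finRange n).imp ?_
    intro i j hij
    exact gen_comm _ (show i ≠ j from hij)

theorem cliqueNum_cross (n : ℕ) : (cross n).cliqueNum = n := by
  refine le_antisymm ?_ ?_
  · obtain ⟨s, hs⟩ := (cross n).exists_isNClique_cliqueNum
    rw [← hs.card_eq]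
    have hinj : Set.InjOn Prod.fst (s : Set (Fin n × Bool)) := by
      intro u hu v hv huv
      by_contra hne
      exact hs.isClique hu hv hne huv
    have := Finset.card_image_of_injOn hinj
    rw [← this]
    exact (Finset.card_le_univ _).trans (by simp)
  · have hc : (cross n).IsClique ((Finset.univ.image fun i : Fin n => (i, false) :
        Finset (Fin n × Bool)) : Set (Fin n × Bool)) := by
      intro u hu v hv huv
      simp only [Finset.coe_image, Finset.coe_univ, Set.image_univ, Set.mem_range] at hu hv
      obtain ⟨i, rfl⟩ := hu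
      obtain ⟨j, rfl⟩ := hv
      intro h
      exact huv (by simp only [Prod.mk.injEq, and_true]; exact h)
    have := SimpleGraph.IsClique.card_le_cliqueNum (tc := hc)
    rwa [Finset.card_image_of_injective _ (by intro i j h; simpa using h),
      Finset.card_univ, Fintype.card_fin] at this

/-- The subgroup generated by the point reflections. -/
def H (n : ℕ) : Subgroup (RACG (cross n)) := Subgroup.closure (Set.range (point n))

/-- All coordinates of an element of `H` have the same parity. -/
theorem par_const (n : ℕ) {g : RACG (cross n)} (hg : g ∈ H n) (i j : Fin n) :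
    par (toPi n g i) = par (toPi n g j) := by
  induction hg using Subgroup.closure_induction with
  | mem x hx =>
    obtain ⟨ε, rfl⟩ := hx
    rw [toPi_point, par_gen, par_gen]
  | one => simp
  | mul x y _ _ h1 h2 => rw [map_mul, Pi.mul_apply, Pi.mul_apply, map_mul, map_mul, h1, h2]
  | inv x _ h1 => rw [map_inv, Pi.inv_apply, Pi.inv_apply, map_inv, map_inv, h1]

theorem mod2_cases (x : Multiplicative (ZMod 2)) : x = 1 ∨ x = Multiplicative.ofAdd 1 := by
  revert x; decide

/-- A nontrivial involution of `H` is odd in all coordinates. -/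
theorem odd_of_sq (n : ℕ) {g : RACG (cross n)} (hg : g ∈ H n) (h2 : g * g = 1) (h1 : g ≠ 1)
    (i : Fin n) : par (toPi n g i) = Multiplicative.ofAdd 1 := by
  rcases mod2_cases (par (toPi n g i)) with h | h
  · exfalso
    apply h1
    apply toPi_injective n
    rw [map_one]
    funext j
    have hj : par (toPi n g j) = 1 := by rw [par_const n hg j i, h]
    refine even_sq hj ?_
    have := congrFun (congrArg (toPi n) h2) j
    simpa using this
  · exact h

/-- Distinct nontrivial involutions of `H` do not commute. -/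
theorem eq_of_commute (n : ℕ) {g h : RACG (cross n)} (hg : g ∈ H n) (hh : h ∈ H n)
    (g2 : g * g = 1) (h2 : h * h = 1) (g1 : g ≠ 1) (h1 : h ≠ 1) (hc : g * h = h * g) : g = h := by
  apply toPi_injective n
  funext i
  have e1 := odd_of_sq n hg g2 g1 i
  have e2 := odd_of_sq n hh h2 h1 i
  have g2i : toPi n g i * toPi n g i = 1 := by
    have := congrFun (congrArg (toPi n) g2) i; simpa using this
  have h2i : toPi n h i * toPi n h i = 1 := by
    have := congrFun (congrArg (toPi n) h2) i; simpa using this
  have hci : toPi n g i * toPi n h i = toPi n h i * toPi n g i := by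
    have := congrFun (congrArg (toPi n) hc) i; simpa using this
  have hev : par (toPi n g i * toPi n h i) = 1 := by
    rw [map_mul, e1, e2]; decide
  have hsq : (toPi n g i * toPi n h i) * (toPi n g i * toPi n h i) = 1 := by
    calc (toPi n g i * toPi n h i) * (toPi n g i * toPi n h i)
        = toPi n g i * (toPi n h i * toPi n g i) * toPi n h i := by simp only [mul_assoc]
      _ = toPi n g i * (toPi n g i * toPi n h i) * toPi n h i := by rw [hci]
      _ = (toPi n g i * toPi n g i) * (toPi n h i * toPi n h i) := by simp only [mul_assoc]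
      _ = 1 := by rw [g2i, h2i, one_mul]
  have h3 := even_sq hev hsq
  rw [mul_eq_one_iff_eq_inv] at h3
  rw [h3, inv_eq_of_mul_eq_one_left h2i]

/-- Products of two nontrivial involutions of `H` commute. -/
theorem products_commute (n : ℕ) {g h k l : RACG (cross n)} (hg : g ∈ H n) (hh : h ∈ H n)
    (hk : k ∈ H n) (hl : l ∈ H n) (g2 : g * g = 1) (h2 : h * h = 1) (k2 : k * k = 1)
    (l2 : l * l = 1) (g1 : g ≠ 1) (h1 : h ≠ 1) (k1 : k ≠ 1) (l1 : l ≠ 1) :
    (g * h) * (k * l) = (k * l) * (g * h) := by
  apply toPi_injective n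
  funext i
  simp only [map_mul, Pi.mul_apply]
  apply even_comm
  · rw [map_mul, odd_of_sq n hg g2 g1 i, odd_of_sq n hh h2 h1 i]; decide
  · rw [map_mul, odd_of_sq n hk k2 k1 i, odd_of_sq n hl l2 l1 i]; decide

/-- The elementary abelian group of order eight. -/
abbrev E : Type := Multiplicative (ZMod 2) × Multiplicative (ZMod 2) × Multiplicative (ZMod 2)

/-- The map to the group of order eight. -/
def toE (n : ℕ) (hn : 2 ≤ n) : RACG (cross n) →* E :=
  (par.comp ((Pi.evalMonoidHom _ ⟨0, by omega⟩).comp (toPi n))).prod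
    ((parb.comp ((Pi.evalMonoidHom _ ⟨0, by omega⟩).comp (toPi n))).prod
      (parb.comp ((Pi.evalMonoidHom _ ⟨1, by omega⟩).comp (toPi n))))

theorem toE_point (n : ℕ) (hn : 2 ≤ n) (ε : Fin n → Bool) :
    toE n hn (point n ε) = (Multiplicative.ofAdd 1,
      Multiplicative.ofAdd (if ε ⟨0, by omega⟩ then 1 else 0),
      Multiplicative.ofAdd (if ε ⟨1, by omega⟩ then 1 else 0)) := by
  simp only [toE, MonoidHom.prod_apply, MonoidHom.comp_apply, Pi.evalMonoidHom_apply, toPi_point,
    par_gen, parb_gen]

theorem toE_surj (n : ℕ) (hn : 2 ≤ n) (e : E) : ∃ g ∈ H n, toE n hn g = e := by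
  have hp : ∀ c d : Bool, ∃ g ∈ H n, toE n hn g = (Multiplicative.ofAdd 1,
      Multiplicative.ofAdd (if c then 1 else 0), Multiplicative.ofAdd (if d then 1 else 0)) := by
    intro c d
    refine ⟨point n (fun i => if i.1 = 0 then c else d),
      Subgroup.subset_closure ⟨_, rfl⟩, ?_⟩
    rw [toE_point]
    simp
  have hmem : e ∈ (H n).map (toE n hn) := by
    have h00 : ((Multiplicative.ofAdd 1, Multiplicative.ofAdd 0, Multiplicative.ofAdd 0) : E) ∈
        (H n).map (toE n hn) := by simpa using hp false false
    have h10 : ((Multiplicative.ofAdd 1, Multiplicative.ofAdd 1, Multiplicative.ofAdd 0) : E) ∈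
        (H n).map (toE n hn) := by simpa using hp true false
    have h01 : ((Multiplicative.ofAdd 1, Multiplicative.ofAdd 0, Multiplicative.ofAdd 1) : E) ∈
        (H n).map (toE n hn) := by simpa using hp false true
    have hx := mul_mem h00 h10
    have hy := mul_mem h00 h01
    have key : ∀ e : E, e = 1 ∨
        e = (Multiplicative.ofAdd 1, Multiplicative.ofAdd 0, Multiplicative.ofAdd 0) ∨
        e = (Multiplicative.ofAdd 1, Multiplicative.ofAdd 1, Multiplicative.ofAdd 0) ∨
        e = (Multiplicative.ofAdd 1, Multiplicative.ofAdd 0, Multiplicative.ofAdd 1) ∨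
        e = (Multiplicative.ofAdd 1, Multiplicative.ofAdd 0, Multiplicative.ofAdd 0) *
          (Multiplicative.ofAdd 1, Multiplicative.ofAdd 1, Multiplicative.ofAdd 0) ∨
        e = (Multiplicative.ofAdd 1, Multiplicative.ofAdd 0, Multiplicative.ofAdd 0) *
          (Multiplicative.ofAdd 1, Multiplicative.ofAdd 0, Multiplicative.ofAdd 1) ∨
        e = (Multiplicative.ofAdd 1, Multiplicative.ofAdd 1, Multiplicative.ofAdd 0) *
          (Multiplicative.ofAdd 1, Multiplicative.ofAdd 0, Multiplicative.ofAdd 1) ∨
        e = ((Multiplicative.ofAdd 1, Multiplicative.ofAdd 1, Multiplicative.ofAdd 0) *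
          (Multiplicative.ofAdd 1, Multiplicative.ofAdd 0, Multiplicative.ofAdd 1)) *
          (Multiplicative.ofAdd 1, Multiplicative.ofAdd 0, Multiplicative.ofAdd 0) := by decide
    rcases key e with rfl | rfl | rfl | rfl | rfl | rfl | rfl | rfl
    · exact one_mem _
    · exact h00
    · exact h10
    · exact h01
    · exact hx
    · exact hy
    · exact mul_mem h10 h01
    · exact mul_mem (mul_mem h10 h01) h00
  exact hmem

theorem mod2_sq (x : Multiplicative (ZMod 2)) : x * x = 1 := by revert x; decide

theorem swap_ne : ¬ (Equiv.swap (0 : Fin 4) 1 * Equiv.swap 1 2 *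
    (Equiv.swap (0 : Fin 4) 1 * Equiv.swap 2 3) = Equiv.swap (0 : Fin 4) 1 * Equiv.swap 2 3 *
    (Equiv.swap (0 : Fin 4) 1 * Equiv.swap 1 2)) := by decide

theorem hE' : ∀ x y : ZMod 2 × ZMod 2 × ZMod 2, ∃ e : ZMod 2 × ZMod 2 × ZMod 2,
    e ≠ 0 ∧ e ≠ x ∧ e ≠ y ∧ e ≠ x + y := by decide

theorem hE (x y : E) : ∃ e : E, e ≠ 1 ∧ e ≠ x ∧ e ≠ y ∧ e ≠ x * y := hE' x y

theorem hsqE : ∀ e : E, e * e = 1 := by decide

theorem hinvE : ∀ e : E, e⁻¹ = e := by decide

theorem hcommE : ∀ e f : E, e * f = f * e := by decide

/-- `H` is not a right-angled Coxeter group. -/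
theorem not_racg (n : ℕ) (hn : 2 ≤ n) (W : Type u) (Δ : SimpleGraph W)
    (φ : H n ≃* RACG Δ) : False := by
  classical
  -- images of the generators
  let g : W → RACG (cross n) := fun w => (φ.symm (gen Δ w) : RACG (cross n))
  have gH : ∀ w, g w ∈ H n := fun w => (φ.symm (gen Δ w)).2
  have gsq : ∀ w, g w * g w = 1 := by
    intro w
    have : φ.symm (gen Δ w) * φ.symm (gen Δ w) = 1 := by rw [← map_mul, gen_sq, map_one]
    exact congrArg Subtype.val this
  have gne : ∀ w, g w ≠ 1 := by
    intro w h
    have h1 : φ.symm (gen Δ w) = 1 := Subtype.ext h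
    have h2 : gen Δ w = 1 := by simpa using h1
    let F := lift Δ (fun _ => (Multiplicative.ofAdd 1 : Multiplicative (ZMod 2)))
      (fun _ => mod2_sq _) (fun _ _ _ => rfl)
    have e1 : F (gen Δ w) = Multiplicative.ofAdd 1 := lift_gen _ _ _ _ _
    rw [h2, map_one] at e1
    exact absurd e1 (by decide)
  have ginj : ∀ u v, g u = g v → u = v := by
    intro u v h
    by_contra huv
    have h1 : φ.symm (gen Δ u) = φ.symm (gen Δ v) := Subtype.ext h
    have h2 : gen Δ u = gen Δ v := φ.symm.injective h1
    let F := lift Δ (fun w => (Multiplicative.ofAdd (if w = u then 1 else 0) :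
      Multiplicative (ZMod 2))) (fun _ => mod2_sq _) (fun _ _ _ => mul_comm _ _)
    have e1 : F (gen Δ u) = Multiplicative.ofAdd (if u = u then 1 else 0) := lift_gen _ _ _ _ _
    have e2 : F (gen Δ v) = Multiplicative.ofAdd (if v = u then 1 else 0) := lift_gen _ _ _ _ _
    rw [h2, e2, if_neg (Ne.symm huv), if_pos rfl] at e1
    exact absurd e1 (by decide)
  -- no edges
  have hedge : ∀ u v, ¬ Δ.Adj u v := by
    intro u v huv
    have hc : g u * g v = g v * g u := by
      have : φ.symm (gen Δ u) * φ.symm (gen Δ v) = φ.symm (gen Δ v) * φ.symm (gen Δ u) := by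
        rw [← map_mul, ← map_mul, gen_comm Δ huv]
      exact congrArg Subtype.val this
    have := eq_of_commute n (gH u) (gH v) (gsq u) (gsq v) (gne u) (gne v) hc
    exact huv.ne (ginj _ _ this)
  -- at most two vertices
  have hthree : ∀ u v w : W, u ≠ v → u ≠ w → v ≠ w → False := by
    intro u v w huv huw hvw
    let f : W → Equiv.Perm (Fin 4) := fun x =>
      if x = u then Equiv.swap 0 1 else if x = v then Equiv.swap 1 2
      else if x = w then Equiv.swap 2 3 else 1
    let F := lift Δ f (by
        intro x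
        simp only [f]
        split_ifs <;> simp)
      (by intro x y hxy; exact absurd hxy (hedge x y))
    have fu : F (gen Δ u) = Equiv.swap 0 1 := by rw [lift_gen]; simp [f]
    have fv : F (gen Δ v) = Equiv.swap 1 2 := by rw [lift_gen]; simp [f, huv.symm]
    have fw : F (gen Δ w) = Equiv.swap 2 3 := by rw [lift_gen]; simp [f, huw.symm, hvw.symm]
    have hc := products_commute n (gH u) (gH v) (gH u) (gH w) (gsq u) (gsq v) (gsq u) (gsq w)
      (gne u) (gne v) (gne u) (gne w)
    have h1 : (φ.symm (gen Δ u) * φ.symm (gen Δ v)) * (φ.symm (gen Δ u) * φ.symm (gen Δ w)) =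
        (φ.symm (gen Δ u) * φ.symm (gen Δ w)) * (φ.symm (gen Δ u) * φ.symm (gen Δ v)) :=
      Subtype.ext hc
    rw [← map_mul, ← map_mul, ← map_mul, ← map_mul] at h1
    have h2 := congrArg F (φ.symm.injective h1)
    simp only [map_mul, fu, fv, fw] at h2
    exact absurd h2 swap_ne
  -- few generators
  have htwo : ∃ x y : E, ∀ w : W, toE n hn (g w) = x ∨ toE n hn (g w) = y := by
    by_cases hW : Nonempty W
    · obtain ⟨u⟩ := hW
      by_cases hW2 : ∃ v, u ≠ v
      · obtain ⟨v, huv⟩ := hW2
        refine ⟨toE n hn (g u), toE n hn (g v), fun w => ?_⟩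
        by_cases h1 : u = w
        · exact Or.inl (by rw [h1])
        · by_cases h2 : v = w
          · exact Or.inr (by rw [h2])
          · exact absurd (hthree u v w huv h1 h2) id
      · push Not at hW2
        exact ⟨toE n hn (g u), 1, fun w => Or.inl (by rw [hW2 w])⟩
    · exact ⟨1, 1, fun w => absurd ⟨w⟩ hW⟩
  obtain ⟨x, y, hxy⟩ := htwo
  have hall : ∀ r : RACG Δ, toE n hn (φ.symm r : RACG (cross n)) = 1 ∨
      toE n hn (φ.symm r : RACG (cross n)) = x ∨ toE n hn (φ.symm r : RACG (cross n)) = y ∨
      toE n hn (φ.symm r : RACG (cross n)) = x * y := by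
    have hclosed : ∀ x y e f : E, (e = 1 ∨ e = x ∨ e = y ∨ e = x * y) →
        (f = x ∨ f = y) → (e * f = 1 ∨ e * f = x ∨ e * f = y ∨ e * f = x * y) := by
      intro x y e f he hf
      rcases he with rfl | rfl | rfl | rfl <;> rcases hf with rfl | rfl
      · simp
      · simp
      · exact Or.inl (hsqE _)
      · exact Or.inr (Or.inr (Or.inr rfl))
      · exact Or.inr (Or.inr (Or.inr (hcommE _ _)))
      · exact Or.inl (hsqE _)
      · refine Or.inr (Or.inr (Or.inl ?_))
        rw [mul_assoc, hcommE, mul_assoc, hsqE, mul_one]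
      · refine Or.inr (Or.inl ?_)
        rw [mul_assoc, hsqE, mul_one]
    intro r
    have hr : r ∈ Subgroup.closure (Set.range (gen Δ)) := by rw [closure_gen]; trivial
    induction hr using Subgroup.closure_induction_right with
    | one => left; simp
    | mul_right r _ s hs ih =>
      obtain ⟨w, rfl⟩ := hs
      rw [map_mul, Subgroup.coe_mul, map_mul]
      exact hclosed x y _ _ ih (hxy w)
    | mul_inv_cancel r _ s hs ih =>
      obtain ⟨w, rfl⟩ := hs
      rw [map_mul, map_inv, Subgroup.coe_mul, Subgroup.coe_inv, map_mul, map_inv, hinvE]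
      exact hclosed x y _ _ ih (hxy w)
  obtain ⟨e, he1, he2, he3, he4⟩ := hE x y
  obtain ⟨k, hk, rfl⟩ := toE_surj n hn e
  have := hall (φ ⟨k, hk⟩)
  simp only [MulEquiv.symm_apply_apply] at this
  tauto

/-- **Negative answer, in every dimension `n ≥ 2`.**  There are a finite graph `Γ` whose
right-angled Coxeter group has dimension `n` and a finite set `S` of generalised reflections of
`C(Γ)` such that `⟨S⟩` is not isomorphic to `C(Δ)` for any graph `Δ`, finite or infinite. -/
theorem result (n : ℕ) (hn : 2 ≤ n) :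
    ∃ (V : Type) (_ : Fintype V) (Γ : SimpleGraph V) (S : Set (RACG Γ)),
      Γ.cliqueNum = n ∧ S.Finite ∧ (∀ x ∈ S, IsGenReflection Γ x) ∧
      ∀ (W : Type u) (Δ : SimpleGraph W), IsEmpty (Subgroup.closure S ≃* RACG Δ) := by
  refine ⟨Fin n × Bool, inferInstance, cross n, Set.range (point n), cliqueNum_cross n,
    Set.finite_range _, ?_, ?_⟩
  · rintro x ⟨ε, rfl⟩
    exact isGenReflection_point n hn ε
  · intro W Δ
    exact ⟨fun φ => not_racg n hn W Δ φ⟩

end Pool.Agent.Results.MP_6a2cdd_al.PointReflections
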